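import Pool.Agent.Helper19.EX.Transfer

/-!
Project EX (MP_2b4692_nt), module EX-2b: the L1 bounds of the Fourier products.
-/

set_option autoImplicit false

namespace Pool.Agent.Helper84.EX

open Pool.Agent.Helper47.EX Finset

open Pool.Agent.Helper19.EX (transfer two_step)

/-! ### elementary properties of the factors -/

theorem e_add_nat (ξ : ℝ) (n : ℕ) : e (ξ + n) = e ξ := by
  unfold e
  have h : (((2 * Real.pi * (ξ + n) : ℝ) : ℂ) * Complex.I) =
      (((2 * Real.pi * ξ : ℝ) : ℂ) * Complex.I) + (n : ℂ) * (2 * (Real.pi : ℂ) * Complex.I) := by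
    push_cast
    ring
  rw [h]
  exact Complex.exp_periodic.nat_mul n _

theorem e_re (ξ : ℝ) : (e ξ).re = Real.cos (2 * Real.pi * ξ) := by
  unfold e
  rw [Complex.exp_ofReal_mul_I_re]

theorem e_im (ξ : ℝ) : (e ξ).im = Real.sin (2 * Real.pi * ξ) := by
  unfold e
  rw [Complex.exp_ofReal_mul_I_im]

theorem norm_e (ξ : ℝ) : ‖e ξ‖ = 1 := by
  unfold e
  exact Complex.norm_exp_ofReal_mul_I _

theorem continuous_e : Continuous e := by
  unfold e
  fun_prop

theorem phi2_nonneg {p : ℝ} (hp : 1 ≤ p) (ξ : ℝ) : 0 ≤ phi2 p ξ := by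
  unfold phi2
  exact div_nonneg (norm_nonneg _) (by linarith)

theorem phi2_le_one {p : ℝ} (hp : 1 ≤ p) (ξ : ℝ) : phi2 p ξ ≤ 1 := by
  unfold phi2
  rw [div_le_one (by linarith)]
  refine (norm_add_le _ _).trans ?_
  rw [norm_mul, norm_e, norm_one, Complex.norm_real, Real.norm_eq_abs, abs_of_nonneg (by linarith)]
  linarith

theorem phi2_add_nat (p ξ : ℝ) (n : ℕ) : phi2 p (ξ + n) = phi2 p ξ := by
  unfold phi2
  rw [e_add_nat]

theorem continuous_phi2 (p : ℝ) : Continuous (phi2 p) := by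
  unfold phi2
  have := continuous_e
  fun_prop

theorem phi3_nonneg {q : ℝ} (hq : 1 ≤ q) (ξ : ℝ) : 0 ≤ phi3 q ξ := by
  unfold phi3
  have : 0 < q⁻¹ := by positivity
  exact div_nonneg (norm_nonneg _) (by positivity)

theorem phi3_le_one {q : ℝ} (hq : 1 ≤ q) (ξ : ℝ) : phi3 q ξ ≤ 1 := by
  unfold phi3
  have h0 : 0 < q⁻¹ := by positivity
  rw [div_le_one (by positivity)]
  refine (norm_add_le _ _).trans ?_
  refine (add_le_add (norm_add_le _ _) le_rfl).trans ?_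
  rw [norm_pow, norm_mul, norm_e, norm_one, Complex.norm_real, Real.norm_eq_abs,
    abs_of_nonneg h0.le, mul_one]

theorem phi3_add_nat (q ξ : ℝ) (n : ℕ) : phi3 q (ξ + n) = phi3 q ξ := by
  unfold phi3
  rw [e_add_nat]

theorem continuous_phi3 (q : ℝ) : Continuous (phi3 q) := by
  unfold phi3
  have := continuous_e
  fun_prop

theorem continuous_aa (p : ℕ → ℝ) (m : ℕ) : Continuous (aa p m) := by
  unfold aa
  exact continuous_finsetProd _ fun k _ => (continuous_phi2 (p k)).comp (by fun_prop)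

theorem continuous_bb (q : ℕ → ℝ) (w : ℕ) : Continuous (bb q w) := by
  unfold bb
  exact continuous_finsetProd _ fun k _ => (continuous_phi3 (q k)).comp (by fun_prop)

theorem aa_nonneg {p : ℕ → ℝ} (hp : Par p) (m : ℕ) (ξ : ℝ) : 0 ≤ aa p m ξ :=
  prod_nonneg fun k _ => phi2_nonneg (hp k).1 _

theorem bb_nonneg {q : ℕ → ℝ} (hq : Par q) (w : ℕ) (ξ : ℝ) : 0 ≤ bb q w ξ :=
  prod_nonneg fun k _ => phi3_nonneg (hq k).1 _

theorem aa_le_one {p : ℕ → ℝ} (hp : Par p) (m : ℕ) (ξ : ℝ) : aa p m ξ ≤ 1 :=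
  prod_le_one (fun k _ => phi2_nonneg (hp k).1 _) fun k _ => phi2_le_one (hp k).1 _

theorem bb_le_one {q : ℕ → ℝ} (hq : Par q) (w : ℕ) (ξ : ℝ) : bb q w ξ ≤ 1 :=
  prod_le_one (fun k _ => phi3_nonneg (hq k).1 _) fun k _ => phi3_le_one (hq k).1 _

theorem aa_add_one (p : ℕ → ℝ) (m : ℕ) (ξ : ℝ) : aa p m (ξ + 1) = aa p m ξ := by
  unfold aa
  refine prod_congr rfl fun k _ => ?_
  have : (2 : ℝ) ^ k * (ξ + 1) = 2 ^ k * ξ + ((2 ^ k : ℕ) : ℝ) := by push_cast; ring
  rw [this, phi2_add_nat]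

theorem bb_add_one (q : ℕ → ℝ) (w : ℕ) (ξ : ℝ) : bb q w (ξ + 1) = bb q w ξ := by
  unfold bb
  refine prod_congr rfl fun k _ => ?_
  have : (3 : ℝ) ^ k * (ξ + 1) = 3 ^ k * ξ + ((3 ^ k : ℕ) : ℝ) := by push_cast; ring
  rw [this, phi3_add_nat]

theorem aa_succ_succ (p : ℕ → ℝ) (j : ℕ) (ξ : ℝ) :
    aa p (j + 2) ξ = phi2 (p 0) ξ * phi2 (p 1) (2 * ξ) * aa (fun k => p (k + 2)) j (4 * ξ) := by
  unfold aa
  rw [prod_range_succ', prod_range_succ', mul_comm, ← mul_assoc, mul_comm]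
  have e1 : ∀ k : ℕ, (2 : ℝ) ^ (k + 1 + 1) * ξ = 2 ^ k * (4 * ξ) := fun k => by ring
  simp only [e1]
  simp only [pow_zero, one_mul, zero_add, pow_one]
  ring

theorem bb_succ (q : ℕ → ℝ) (k : ℕ) (ξ : ℝ) :
    bb q (k + 1) ξ = phi3 (q 0) ξ * bb (fun l => q (l + 1)) k (3 * ξ) := by
  unfold bb
  rw [prod_range_succ', mul_comm]
  have e1 : ∀ k : ℕ, (3 : ℝ) ^ (k + 1) * ξ = 3 ^ k * (3 * ξ) := fun k => by ring
  simp only [e1]
  simp only [pow_zero, one_mul]

/-! ### the ternary step -/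

theorem norm_sq_phi3 (r ξ : ℝ) :
    ‖(1 : ℂ) + (r : ℂ) * e ξ + ((r : ℂ) * e ξ) ^ 2‖ ^ 2 =
      1 - r ^ 2 + r ^ 4 + 2 * (r + r ^ 3) * Real.cos (2 * Real.pi * ξ) +
        4 * r ^ 2 * Real.cos (2 * Real.pi * ξ) ^ 2 := by
  rw [← Complex.normSq_eq_norm_sq, Complex.normSq_apply]
  have h := Real.sin_sq_add_cos_sq (2 * Real.pi * ξ)
  have hs : Real.sin (2 * Real.pi * ξ) ^ 2 = 1 - Real.cos (2 * Real.pi * ξ) ^ 2 := by linarith
  simp only [Complex.add_re, Complex.one_re, Complex.mul_re, Complex.ofReal_re, Complex.ofReal_im,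
    Complex.add_im, Complex.one_im, Complex.mul_im, e_re, e_im, pow_two]
  set c := Real.cos (2 * Real.pi * ξ)
  set s := Real.sin (2 * Real.pi * ξ)
  have e1 : (1 + (r * c - 0 * s) + ((r * c - 0 * s) * (r * c - 0 * s) -
      (r * s + 0 * c) * (r * s + 0 * c))) = 1 + r * c + r ^ 2 * (c ^ 2 - s ^ 2) := by ring
  have e2 : (0 + (r * s + 0 * c) + ((r * c - 0 * s) * (r * s + 0 * c) +
      (r * s + 0 * c) * (r * c - 0 * s))) = r * s + 2 * r ^ 2 * (c * s) := by ring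
  rw [e1, e2, hs]
  have e3 : (r * s + 2 * r ^ 2 * (c * s)) * (r * s + 2 * r ^ 2 * (c * s)) =
      s ^ 2 * (r + 2 * r ^ 2 * c) ^ 2 := by ring
  rw [e3, hs]
  ring

theorem three_step (q : ℝ) (hq : 1 ≤ q) (hq1 : q ≤ 13 / 10) (t : ℝ) :
    ∑ i ∈ range 3, phi3 q ((t + i) / 3) ^ 2 ≤ 3 * 0.5903 ^ 2 := by
  set r := q⁻¹ with hr
  have hr0 : 0 < r := by positivity
  have hqr : q * r = 1 := mul_inv_cancel₀ (by linarith)
  set b := 2 * Real.pi * (t / 3) with hb
  have c1 : Real.cos (2 * Real.pi / 3) = -1 / 2 := by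
    rw [show 2 * Real.pi / 3 = Real.pi - Real.pi / 3 by ring, Real.cos_pi_sub, Real.cos_pi_div_three]
    norm_num
  have s1 : Real.sin (2 * Real.pi / 3) = √3 / 2 := by
    rw [show 2 * Real.pi / 3 = Real.pi - Real.pi / 3 by ring, Real.sin_pi_sub, Real.sin_pi_div_three]
  have c2 : Real.cos (4 * Real.pi / 3) = -1 / 2 := by
    rw [show 4 * Real.pi / 3 = Real.pi / 3 + Real.pi by ring, Real.cos_add_pi,
      Real.cos_pi_div_three]
    norm_num
  have s2 : Real.sin (4 * Real.pi / 3) = -√3 / 2 := by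
    rw [show 4 * Real.pi / 3 = Real.pi / 3 + Real.pi by ring, Real.sin_add_pi,
      Real.sin_pi_div_three]
    ring
  have k0 : Real.cos (2 * Real.pi * ((t + ((0 : ℕ) : ℝ)) / 3)) = Real.cos b := by
    congr 1
    rw [hb]; push_cast; ring
  have k1 : Real.cos (2 * Real.pi * ((t + ((1 : ℕ) : ℝ)) / 3)) =
      -(Real.cos b) / 2 - √3 / 2 * Real.sin b := by
    have : 2 * Real.pi * ((t + ((1 : ℕ) : ℝ)) / 3) = b + 2 * Real.pi / 3 := by
      rw [hb]; push_cast; ring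
    rw [this, Real.cos_add, c1, s1]
    ring
  have k2 : Real.cos (2 * Real.pi * ((t + ((2 : ℕ) : ℝ)) / 3)) =
      -(Real.cos b) / 2 + √3 / 2 * Real.sin b := by
    have : 2 * Real.pi * ((t + ((2 : ℕ) : ℝ)) / 3) = b + 4 * Real.pi / 3 := by
      rw [hb]; push_cast; ring
    rw [this, Real.cos_add, c2, s2]
    ring
  have hsum : ∑ i ∈ range 3, phi3 q ((t + i) / 3) ^ 2 =
      3 * (1 + r ^ 2 + r ^ 4) / (1 + r + r ^ 2) ^ 2 := by
    simp only [sum_range_succ, sum_range_zero, zero_add]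
    unfold phi3
    simp only [div_pow, ← hr]
    rw [norm_sq_phi3, norm_sq_phi3, norm_sq_phi3, k0, k1, k2, ← add_div, ← add_div]
    congr 1
    have h3 : (√3) ^ 2 = 3 := Real.sq_sqrt (by norm_num)
    have hcs := Real.sin_sq_add_cos_sq b
    have hss : Real.sin b ^ 2 = 1 - Real.cos b ^ 2 := by linarith
    have e1 : (-(Real.cos b) / 2 - √3 / 2 * Real.sin b) ^ 2 +
        (-(Real.cos b) / 2 + √3 / 2 * Real.sin b) ^ 2 =
        Real.cos b ^ 2 / 2 + (√3) ^ 2 * Real.sin b ^ 2 / 2 := by ring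
    rw [h3, hss] at e1
    linear_combination 4 * r ^ 2 * e1
  rw [hsum, div_le_iff₀ (by positivity)]
  have hfac : 1 + r ^ 2 + r ^ 4 = (1 + r + r ^ 2) * (1 - r + r ^ 2) := by ring
  rw [hfac]
  have hpos : 0 < 1 + r + r ^ 2 := by positivity
  have key : 1 - r + r ^ 2 ≤ 0.5903 ^ 2 * (1 + r + r ^ 2) := by
    have h1 : q ^ 2 - q + 1 ≤ 0.5903 ^ 2 * (q ^ 2 + q + 1) := by nlinarith
    have h2 := mul_le_mul_of_nonneg_right h1 (sq_nonneg r)
    have e1 : (q ^ 2 - q + 1) * r ^ 2 = 1 - r + r ^ 2 := by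
      linear_combination (q * r + 1 - r) * hqr
    have e2 : 0.5903 ^ 2 * (q ^ 2 + q + 1) * r ^ 2 = 0.5903 ^ 2 * (1 + r + r ^ 2) := by
      linear_combination 0.5903 ^ 2 * (q * r + 1 + r) * hqr
    rwa [e1, e2] at h2
  nlinarith

/-! ### the L1 bounds -/

theorem aa_int (p : ℕ → ℝ) (hp : Par p) (j : ℕ) :
    ∫ ξ in (0 : ℝ)..1, aa p j ξ ≤ 0.473 ^ (j / 2) := by
  induction j using Nat.twoStepInduction generalizing p with
  | zero => simp [aa]
  | one =>
    have h := intervalIntegral.integral_mono_on (a := (0 : ℝ)) (b := 1)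
      (μ := MeasureTheory.volume) (by norm_num)
      ((continuous_aa p 1).intervalIntegrable _ _) (intervalIntegrable_const (c := (1 : ℝ)))
      fun ξ _ => aa_le_one hp 1 ξ
    simpa using h
  | more j ih _ =>
    have hp' : Par fun k => p (k + 2) := fun k => hp _
    have h := transfer 4 (by norm_num) (fun ξ => phi2 (p 0) ξ * phi2 (p 1) (2 * ξ))
      (aa (fun k => p (k + 2)) j)
      ((continuous_phi2 _).mul ((continuous_phi2 _).comp (by fun_prop)))
      (continuous_aa _ _) (aa_add_one _ _) (aa_nonneg hp' j) 0.473 (by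
        intro t
        have := two_step (p 0) (p 1) (hp 0).1 (hp 0).2 (hp 1).1 (hp 1).2 t
        simpa using this)
    have e1 : ∀ ξ : ℝ, aa p (j + 2) ξ = phi2 (p 0) ξ * phi2 (p 1) (2 * ξ) *
        aa (fun k => p (k + 2)) j (((4 : ℕ) : ℝ) * ξ) := by
      intro ξ
      rw [aa_succ_succ]
      norm_num
    simp only [e1]
    have e2 : (j + 2) / 2 = j / 2 + 1 := by omega
    rw [e2, pow_succ]
    have h2 := ih (fun k => p (k + 2)) hp'
    refine h.trans ?_
    rw [mul_comm]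
    exact mul_le_mul_of_nonneg_right h2 (by norm_num)

theorem bb_sq_int (q : ℕ → ℝ) (hq : Par q) (k : ℕ) :
    ∫ ξ in (0 : ℝ)..1, bb q k ξ ^ 2 ≤ (0.5903 ^ 2) ^ k := by
  induction k generalizing q with
  | zero => simp [bb]
  | succ k ih =>
    have hq' : Par fun l => q (l + 1) := fun l => hq _
    have h := transfer 3 (by norm_num) (fun ξ => phi3 (q 0) ξ ^ 2)
      (fun ξ => bb (fun l => q (l + 1)) k ξ ^ 2)
      ((continuous_phi3 _).pow 2) ((continuous_bb _ _).pow 2)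
      (fun t => by rw [bb_add_one]) (fun t => sq_nonneg _) (0.5903 ^ 2) (by
        intro t
        have := three_step (q 0) (hq 0).1 (hq 0).2 t
        simpa using this)
    have e1 : ∀ ξ : ℝ, bb q (k + 1) ξ ^ 2 = phi3 (q 0) ξ ^ 2 *
        bb (fun l => q (l + 1)) k (((3 : ℕ) : ℝ) * ξ) ^ 2 := by
      intro ξ
      rw [bb_succ, mul_pow]
      norm_num
    simp only [e1]
    rw [pow_succ]
    have h2 := ih (fun l => q (l + 1)) hq'
    refine h.trans ?_
    rw [mul_comm]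
    exact mul_le_mul_of_nonneg_right h2 (by norm_num)

theorem bb_int (q : ℕ → ℝ) (hq : Par q) (k : ℕ) :
    ∫ ξ in (0 : ℝ)..1, bb q k ξ ≤ 0.5903 ^ k := by
  have hl : (0 : ℝ) < 0.5903 ^ k := by positivity
  have h1 := bb_sq_int q hq k
  have h2 := intervalIntegral.integral_mono_on (a := (0 : ℝ)) (b := 1)
      (μ := MeasureTheory.volume) (by norm_num)
      ((continuous_bb q k).intervalIntegrable _ _)
      (Continuous.intervalIntegrable (u := fun ξ : ℝ =>
        (1 / (2 * 0.5903 ^ k)) * bb q k ξ ^ 2 + 0.5903 ^ k / 2)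
        (by have := continuous_bb q k; fun_prop) _ _)
      fun ξ _ => by
        have h3 : 0 ≤ (bb q k ξ - 0.5903 ^ k) ^ 2 := sq_nonneg _
        have h4 : (1 / (2 * (0.5903 : ℝ) ^ k)) * bb q k ξ ^ 2 + 0.5903 ^ k / 2 - bb q k ξ =
            (bb q k ξ - 0.5903 ^ k) ^ 2 / (2 * 0.5903 ^ k) := by
          field_simp
          ring
        have h5 : 0 ≤ (bb q k ξ - (0.5903 : ℝ) ^ k) ^ 2 / (2 * 0.5903 ^ k) := by positivity
        linarith
  refine h2.trans ?_
  rw [intervalIntegral.integral_add (Continuous.intervalIntegrable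
    (by have := continuous_bb q k; fun_prop) _ _) (by simp),
    intervalIntegral.integral_const_mul, intervalIntegral.integral_const]
  have h6 : (1 / (2 * (0.5903 : ℝ) ^ k)) * ∫ ξ in (0 : ℝ)..1, bb q k ξ ^ 2 ≤
      (1 / (2 * 0.5903 ^ k)) * (0.5903 ^ 2) ^ k :=
    mul_le_mul_of_nonneg_left h1 (by positivity)
  have h7 : (1 / (2 * (0.5903 : ℝ) ^ k)) * (0.5903 ^ 2) ^ k = 0.5903 ^ k / 2 := by
    rw [← pow_mul, mul_comm 2 k, pow_mul]
    field_simp
  rw [h7] at h6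
  simp only [sub_zero, one_smul]
  linarith

end Pool.Agent.Helper84.EX
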